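import Mathlib

/-!
# The fractional-part integral operator is not of trace class

`(T h)(y) = ∫_0^1 {u/y}/(u/y) h(u) du` on `L^2([0,1])`.  We show that the approximation numbers
(which are the singular values) satisfy `s_n(T) ≥ c/n`, and that `∑ s_n(T) = ∞`.
-/

namespace Pool.Agent.Results.MP_5a0ad8_an.NotTraceClass

open MeasureTheory Module

noncomputable section

/-- Lebesgue measure on the unit interval. -/
def mu : Measure ℝ := volume.restrict (Set.Ioc (0 : ℝ) 1)

/-- The complex Hilbert space `L^2([0,1])`. -/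
abbrev H0 := Lp ℂ 2 mu

/-- The kernel `K(y,u) = {u/y} / (u/y)`. -/
def K (y u : ℝ) : ℝ := Int.fract (u / y) / (u / y)

instance : IsProbabilityMeasure mu := by
  constructor
  simp [mu]

/-! ### abstract part -/

section Abstract

variable {E : Type*} [NormedAddCommGroup E] [InnerProductSpace ℂ E] {N : ℕ}

lemma norm_sq_orth (k : Fin N → E) (hk : ∀ i j, i ≠ j → inner ℂ (k i) (k j) = 0)
    (c : Fin N → ℂ) : ‖∑ i, c i • k i‖ ^ 2 = ∑ i, ‖c i‖ ^ 2 * ‖k i‖ ^ 2 := by
  have h1 : (inner ℂ (∑ i, c i • k i) (∑ i, c i • k i) : ℂ) =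
      ∑ i, ((‖c i‖ ^ 2 * ‖k i‖ ^ 2 : ℝ) : ℂ) := by
    rw [sum_inner]
    refine Finset.sum_congr rfl fun i _ => ?_
    rw [inner_sum, Finset.sum_eq_single i]
    · rw [inner_smul_left, inner_smul_right, inner_self_eq_norm_sq_to_K]
      rw [← mul_assoc, ← Complex.normSq_eq_conj_mul_self, Complex.normSq_eq_norm_sq]
      push_cast
      rfl
    · intro j _ hj
      rw [inner_smul_left, inner_smul_right, hk i j hj.symm]
      simp
    · intro h; exact absurd (Finset.mem_univ _) h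
  rw [inner_self_eq_norm_sq_to_K] at h1
  have h2 : ((‖∑ i, c i • k i‖ ^ 2 : ℝ) : ℂ) = ((∑ i, ‖c i‖ ^ 2 * ‖k i‖ ^ 2 : ℝ) : ℂ) := by
    push_cast at h1 ⊢
    exact h1
  exact_mod_cast h2

/-- the key lower bound on the span of the `h_i` -/
lemma lower (T : E →L[ℂ] E) (h k : Fin N → E) (η κ γ : ℝ) (hη : 0 < η) (hκ : 0 < κ) (hγ : 0 < γ)
    (hh : ∀ i j, i ≠ j → inner ℂ (h i) (h j) = 0) (hk : ∀ i j, i ≠ j → inner ℂ (k i) (k j) = 0)
    (hhn : ∀ i, ‖h i‖ ^ 2 ≤ η) (hkn : ∀ i, ‖k i‖ ^ 2 ≤ κ)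
    (hT : ∀ i j, inner ℂ (k j) (T (h i)) = if i = j then (γ : ℂ) else 0) (c : Fin N → ℂ)
    (hc : c ≠ 0) :
    0 < ‖T (∑ i, c i • h i)‖ ∧
      γ ^ 2 * ‖∑ i, c i • h i‖ ^ 2 ≤ η * κ * ‖T (∑ i, c i • h i)‖ ^ 2 := by
  set v := ∑ i, c i • h i with hv
  set w := ∑ i, c i • k i with hw
  set S := ∑ i, ‖c i‖ ^ 2 with hS
  have hSpos : 0 < S := by
    obtain ⟨i, hi⟩ := Function.ne_iff.mp hc
    refine Finset.sum_pos' (fun j _ => by positivity) ⟨i, Finset.mem_univ _, ?_⟩
    have : 0 < ‖c i‖ := norm_pos_iff.mpr hi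
    positivity
  have hvn : ‖v‖ ^ 2 ≤ η * S := by
    rw [hv, norm_sq_orth h hh, hS, Finset.mul_sum]
    refine Finset.sum_le_sum fun i _ => ?_
    rw [mul_comm]
    exact mul_le_mul_of_nonneg_right (hhn i) (by positivity)
  have hwn : ‖w‖ ^ 2 ≤ κ * S := by
    rw [hw, norm_sq_orth k hk, hS, Finset.mul_sum]
    refine Finset.sum_le_sum fun i _ => ?_
    rw [mul_comm]
    exact mul_le_mul_of_nonneg_right (hkn i) (by positivity)
  have hin : (inner ℂ w (T v) : ℂ) = ((γ * S : ℝ) : ℂ) := by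
    rw [hw, sum_inner]
    have h1 : ∀ j, inner ℂ (c j • k j) (T v) = ((γ * ‖c j‖ ^ 2 : ℝ) : ℂ) := by
      intro j
      rw [hv, map_sum, inner_sum, Finset.sum_eq_single j]
      · rw [map_smul, inner_smul_left, inner_smul_right, hT, if_pos rfl, ← mul_assoc,
          ← Complex.normSq_eq_conj_mul_self, Complex.normSq_eq_norm_sq]
        push_cast
        ring
      · intro i _ hi
        rw [map_smul, inner_smul_left, inner_smul_right, hT, if_neg hi]
        simp
      · intro h; exact absurd (Finset.mem_univ _) h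
    rw [Finset.sum_congr rfl fun j _ => h1 j, ← Complex.ofReal_sum, hS, Finset.mul_sum]
  have hcs : γ * S ≤ ‖w‖ * ‖T v‖ := by
    have h2 := norm_inner_le_norm (𝕜 := ℂ) w (T v)
    rw [hin, Complex.norm_real, Real.norm_of_nonneg (by positivity)] at h2
    exact h2
  have hTpos : 0 < ‖T v‖ := by
    by_contra hneg
    have h0 : ‖T v‖ = 0 := le_antisymm (not_lt.mp hneg) (norm_nonneg _)
    rw [h0, mul_zero] at hcs
    have : 0 < γ * S := by positivity
    linarith
  refine ⟨hTpos, ?_⟩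
  have h3 : (γ * S) ^ 2 ≤ (κ * S) * ‖T v‖ ^ 2 := by
    calc (γ * S) ^ 2 ≤ (‖w‖ * ‖T v‖) ^ 2 := pow_le_pow_left₀ (by positivity) hcs 2
      _ = ‖w‖ ^ 2 * ‖T v‖ ^ 2 := by ring
      _ ≤ (κ * S) * ‖T v‖ ^ 2 := mul_le_mul_of_nonneg_right hwn (by positivity)
  have h4 : γ ^ 2 * S ≤ κ * ‖T v‖ ^ 2 := by
    have : (γ ^ 2 * S) * S ≤ (κ * ‖T v‖ ^ 2) * S := by nlinarith
    exact le_of_mul_le_mul_right this hSpos
  calc γ ^ 2 * ‖v‖ ^ 2 ≤ γ ^ 2 * (η * S) := mul_le_mul_of_nonneg_left hvn (by positivity)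
    _ = η * (γ ^ 2 * S) := by ring
    _ ≤ η * (κ * ‖T v‖ ^ 2) := mul_le_mul_of_nonneg_left h4 hη.le
    _ = _ := by ring

end Abstract

/-- `N` orthogonal test vectors on whose span `T` is bounded below by `c/N`. -/
def Test (T : H0 →L[ℂ] H0) (c : ℝ) : Prop :=
  ∀ N : ℕ, 1 ≤ N → ∃ h : Fin N → H0, ∀ a : Fin N → ℂ, a ≠ 0 →
    0 < ‖T (∑ i, a i • h i)‖ ∧ c / N * ‖∑ i, a i • h i‖ ≤ ‖T (∑ i, a i • h i)‖

/-- approximation numbers -/
lemma approx_of_test {T : H0 →L[ℂ] H0} {c : ℝ} (hT : Test T c) (n : ℕ) (hn : 1 ≤ n)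
    (F : H0 →L[ℂ] H0) (hF : FiniteDimensional ℂ (LinearMap.range F.toLinearMap))
    (hr : finrank ℂ (LinearMap.range F.toLinearMap) < n) : c / n ≤ ‖T - F‖ := by
  obtain ⟨h, hh⟩ := hT n hn
  set L : (Fin n → ℂ) →ₗ[ℂ] LinearMap.range F.toLinearMap :=
    F.toLinearMap.rangeRestrict ∘ₗ (Fintype.linearCombination ℂ h) with hL
  have hker : LinearMap.ker L ≠ ⊥ := by
    apply LinearMap.ker_ne_bot_of_finrank_lt
    simpa using hr
  obtain ⟨a, ha, ha0⟩ := Submodule.exists_mem_ne_zero_of_ne_bot hker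
  have hFv : F (∑ i, a i • h i) = 0 := by
    have h1 : L a = 0 := ha
    have h2 := congrArg Subtype.val h1
    simpa [hL, Fintype.linearCombination_apply] using h2
  obtain ⟨hpos, hle⟩ := hh a ha0
  set v := ∑ i, a i • h i with hv
  have hv0 : 0 < ‖v‖ := by
    rw [norm_pos_iff]
    intro h0
    rw [h0, map_zero, norm_zero] at hpos
    exact lt_irrefl _ hpos
  have h3 : ‖T v‖ ≤ ‖T - F‖ * ‖v‖ := by
    have := (T - F).le_opNorm v
    rwa [ContinuousLinearMap.sub_apply, hFv, sub_zero] at this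
  exact le_of_mul_le_mul_right (hle.trans h3) hv0

lemma eigen_of_test {T : H0 →L[ℂ] H0} {c : ℝ} (hc : 0 < c) (hT : Test T c) {ι : Type*}
    (b : HilbertBasis ι ℂ H0) (s : ι → ℝ) (hs : ∀ i, 0 ≤ s i)
    (hb : ∀ i, (ContinuousLinearMap.adjoint T) (T (b i)) = ((s i ^ 2 : ℝ) : ℂ) • b i) :
    ¬ Summable s := by
  classical
  intro hsum
  obtain ⟨J0, hJ0⟩ := summable_iff_vanishing.mp hsum (Set.Iio (c / 4)) (Iio_mem_nhds (by positivity))
  set N : ℕ := 2 * J0.card + 1 with hN
  have hN1 : 1 ≤ N := by omega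
  have hNpos : (0 : ℝ) < N := by exact_mod_cast hN1
  have hfin : {i | c / (2 * N) ≤ s i}.Finite := by
    have h1 := hsum.tendsto_cofinite_zero
    have h2 : ∀ᶠ i in Filter.cofinite, s i < c / (2 * N) :=
      h1.eventually (Iio_mem_nhds (by positivity))
    rw [Filter.eventually_cofinite] at h2
    refine h2.subset fun i hi => ?_
    simp only [Set.mem_ofPred_eq, not_lt] at *
    exact hi
  set J := hfin.toFinset with hJ
  have hmemJ : ∀ i, i ∈ J ↔ c / (2 * N) ≤ s i := by intro i; simp [hJ]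
  have hcard : J.card < N := by
    have h1 := hJ0 (J \ J0) Finset.sdiff_disjoint
    have h2 : (J \ J0).card * (c / (2 * N)) ≤ ∑ i ∈ J \ J0, s i := by
      rw [← nsmul_eq_mul, ← Finset.sum_const]
      refine Finset.sum_le_sum fun i hi => ?_
      exact (hmemJ i).mp (Finset.mem_sdiff.mp hi).1
    have h3 : ((J \ J0).card : ℝ) * (c / (2 * N)) < c / 4 := lt_of_le_of_lt h2 h1
    have h4 : ((J \ J0).card : ℝ) * 2 < N := by
      rw [mul_div_assoc', div_lt_div_iff₀ (by positivity) (by norm_num)] at h3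
      nlinarith
    have h5 : (J \ J0).card * 2 < N := by exact_mod_cast h4
    have h6 : J.card ≤ (J \ J0).card + J0.card := by
      have := Finset.card_le_card (Finset.subset_union_left (s₁ := J) (s₂ := J0))
      rw [← Finset.sdiff_union_self_eq_union] at this
      exact this.trans (Finset.card_union_le _ _)
    omega
  obtain ⟨h, hh⟩ := hT N hN1
  set L : (Fin N → ℂ) →ₗ[ℂ] (J → ℂ) := LinearMap.pi (fun i : J =>
    ((innerSL ℂ (b i)).toLinearMap ∘ₗ (Fintype.linearCombination ℂ h))) with hL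
  have hker : LinearMap.ker L ≠ ⊥ := by
    apply LinearMap.ker_ne_bot_of_finrank_lt
    simpa using hcard
  obtain ⟨a, ha, ha0⟩ := Submodule.exists_mem_ne_zero_of_ne_bot hker
  obtain ⟨hpos, hle⟩ := hh a ha0
  set v := ∑ i, a i • h i with hv
  have horth : ∀ i ∈ J, inner ℂ (b i) v = 0 := by
    intro i hi
    have h1 : L a = 0 := ha
    have h2 := congrFun h1 ⟨i, hi⟩
    simpa [hL, Fintype.linearCombination_apply, hv] using h2
  have hv0 : 0 < ‖v‖ := by
    rw [norm_pos_iff]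
    intro h0
    rw [h0, map_zero, norm_zero] at hpos
    exact lt_irrefl _ hpos
  -- the norm of `T v`
  have h1 := b.hasSum_inner_mul_inner v ((ContinuousLinearMap.adjoint T) (T v))
  have h2 : ∀ i, inner ℂ v (b i) * inner ℂ (b i) ((ContinuousLinearMap.adjoint T) (T v)) =
      ((s i ^ 2 * ‖inner ℂ (b i) v‖ ^ 2 : ℝ) : ℂ) := by
    intro i
    rw [ContinuousLinearMap.adjoint_inner_right, ← ContinuousLinearMap.adjoint_inner_left, hb i,
      inner_smul_left, ← inner_conj_symm v (b i)]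
    rw [Complex.conj_ofReal]
    have : (starRingEnd ℂ) (inner ℂ (b i) v) * (((s i ^ 2 : ℝ) : ℂ) * inner ℂ (b i) v) =
        ((s i ^ 2 : ℝ) : ℂ) * ((starRingEnd ℂ) (inner ℂ (b i) v) * inner ℂ (b i) v) := by ring
    rw [this, ← Complex.normSq_eq_conj_mul_self, Complex.normSq_eq_norm_sq]
    push_cast
    rfl
  have h3 : inner ℂ v ((ContinuousLinearMap.adjoint T) (T v)) = ((‖T v‖ ^ 2 : ℝ) : ℂ) := by
    rw [ContinuousLinearMap.adjoint_inner_right, inner_self_eq_norm_sq_to_K]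
    push_cast
    rfl
  rw [h3] at h1
  simp only [h2] at h1
  have h1' : HasSum (fun i => s i ^ 2 * ‖inner ℂ (b i) v‖ ^ 2) (‖T v‖ ^ 2) := by
    exact_mod_cast (Complex.hasSum_ofReal.mp h1)
  have h4 := b.hasSum_inner_mul_inner v v
  have h5 : ∀ i, inner ℂ v (b i) * inner ℂ (b i) v = ((‖inner ℂ (b i) v‖ ^ 2 : ℝ) : ℂ) := by
    intro i
    rw [← inner_conj_symm v (b i), ← Complex.normSq_eq_conj_mul_self, Complex.normSq_eq_norm_sq]
  simp only [h5] at h4
  have h6 : inner ℂ v v = ((‖v‖ ^ 2 : ℝ) : ℂ) := by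
    rw [inner_self_eq_norm_sq_to_K]; push_cast; rfl
  rw [h6] at h4
  have h4' : HasSum (fun i => ‖inner ℂ (b i) v‖ ^ 2) (‖v‖ ^ 2) := Complex.hasSum_ofReal.mp h4
  have h7 : ‖T v‖ ^ 2 ≤ (c / (2 * N)) ^ 2 * ‖v‖ ^ 2 := by
    refine hasSum_le (fun i => ?_) h1' (h4'.mul_left _)
    by_cases hi : i ∈ J
    · rw [horth i hi]; simp
    · have h8 : s i < c / (2 * N) := by
        have := (hmemJ i).not.mp hi
        exact not_le.mp this
      exact mul_le_mul_of_nonneg_right (pow_le_pow_left₀ (hs i) h8.le 2) (by positivity)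
  have h8 : (c / N * ‖v‖) ^ 2 ≤ ‖T v‖ ^ 2 := pow_le_pow_left₀ (by positivity) hle 2
  have h9 : (c / N * ‖v‖) ^ 2 = 4 * ((c / (2 * N)) ^ 2 * ‖v‖ ^ 2) := by field_simp; norm_num
  have h10 : 0 < (c / (2 * N)) ^ 2 * ‖v‖ ^ 2 := by positivity
  rw [h9] at h8
  linarith

/-! ### the operator -/

lemma mem_unit : ∀ᵐ y ∂mu, y ∈ Set.Ioc (0 : ℝ) 1 := ae_restrict_mem measurableSet_Ioc

lemma K_meas : Measurable (fun q : ℝ × ℝ => K q.1 q.2) := by
  unfold K
  exact (measurable_fract.comp (measurable_snd.div measurable_fst)).div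
    (measurable_snd.div measurable_fst)

lemma K_abs_le {y u : ℝ} (hy : 0 < y) (hu : 0 < u) : |K y u| ≤ 1 := by
  unfold K
  have h1 : 0 < u / y := div_pos hu hy
  rw [abs_of_nonneg (div_nonneg (Int.fract_nonneg _) h1.le), div_le_one h1]
  rw [Int.fract]
  have : (0 : ℤ) ≤ ⌊u / y⌋ := Int.floor_nonneg.mpr h1.le
  have h2 : (0 : ℝ) ≤ (⌊u / y⌋ : ℝ) := by exact_mod_cast this
  linarith

lemma coe_K_meas (y : ℝ) : AEStronglyMeasurable (fun u => (K y u : ℂ)) mu :=
  ((Complex.measurable_ofReal.comp (K_meas.comp measurable_prodMk_left))).aestronglyMeasurable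

lemma integrable_H (h : H0) : Integrable (fun u => (h : ℝ → ℂ) u) mu :=
  (Lp.memLp h).integrable (by norm_num)

lemma integrable_K {y : ℝ} (hy : 0 < y) {f : ℝ → ℂ} (hf : Integrable f mu) :
    Integrable (fun u => (K y u : ℂ) * f u) mu := by
  refine hf.bdd_mul (c := 1) (coe_K_meas y) ?_
  filter_upwards [mem_unit] with u hu
  rw [Complex.norm_real]
  exact K_abs_le hy hu.1

lemma norm_int_le (h : H0) : ∫ u, ‖(h : ℝ → ℂ) u‖ ∂mu ≤ ‖h‖ := by
  have h1 : eLpNorm (h : ℝ → ℂ) 1 mu ≤ eLpNorm (h : ℝ → ℂ) 2 mu :=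
    eLpNorm_le_eLpNorm_of_exponent_le (by norm_num) (Lp.memLp h).1
  rw [integral_norm_eq_lintegral_enorm (Lp.memLp h).1, Lp.norm_def,
    ← eLpNorm_one_eq_lintegral_enorm]
  exact ENNReal.toReal_mono (Lp.eLpNorm_ne_top h) h1

/-- the integral transform as a function -/
def KI (h : ℝ → ℂ) (y : ℝ) : ℂ := ∫ u, (K y u : ℂ) * h u ∂mu

lemma KI_bound (h : H0) : ∀ᵐ y ∂mu, ‖KI h y‖ ≤ ‖h‖ := by
  filter_upwards [mem_unit] with y hy
  refine (norm_integral_le_integral_norm _).trans (le_trans ?_ (norm_int_le h))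
  refine integral_mono_ae (integrable_K hy.1 (integrable_H h)).norm (integrable_H h).norm ?_
  filter_upwards [mem_unit] with u hu
  simp only [norm_mul, Complex.norm_real, Real.norm_eq_abs]
  have := K_abs_le hy.1 hu.1
  have h0 := norm_nonneg ((h : ℝ → ℂ) u)
  nlinarith

lemma KI_meas (h : H0) : AEStronglyMeasurable (KI h) mu := by
  unfold KI
  have h1 : AEStronglyMeasurable (fun q : ℝ × ℝ => (K q.1 q.2 : ℂ) * (h : ℝ → ℂ) q.2)
      (mu.prod mu) := by
    refine (Complex.measurable_ofReal.comp K_meas).aestronglyMeasurable.mul ?_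
    exact (Lp.memLp h).1.comp_snd
  exact h1.integral_prod_right'

lemma KI_memLp (h : H0) : MemLp (KI h) 2 mu := MemLp.of_bound (KI_meas h) _ (KI_bound h)

/-- The integral operator. -/
def T : H0 →L[ℂ] H0 :=
  LinearMap.mkContinuous
    { toFun := fun h => (KI_memLp h).toLp
      map_add' := by
        intro h1 h2
        rw [← MemLp.toLp_add, MemLp.toLp_eq_toLp_iff]
        filter_upwards [mem_unit] with y hy
        simp only [Pi.add_apply, KI]
        rw [← integral_add (integrable_K hy.1 (integrable_H h1))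
          (integrable_K hy.1 (integrable_H h2))]
        refine integral_congr_ae ?_
        filter_upwards [Lp.coeFn_add h1 h2] with u hu
        rw [hu, Pi.add_apply, mul_add]
      map_smul' := by
        intro c h
        rw [RingHom.id_apply, ← MemLp.toLp_const_smul, MemLp.toLp_eq_toLp_iff]
        filter_upwards [mem_unit] with y hy
        simp only [Pi.smul_apply, KI, smul_eq_mul]
        rw [← integral_const_mul]
        refine integral_congr_ae ?_
        filter_upwards [Lp.coeFn_smul c h] with u hu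
        rw [hu, Pi.smul_apply, smul_eq_mul]
        ring } 1 (by
      intro h
      simp only [LinearMap.coe_mk, AddHom.coe_mk, one_mul]
      rw [Lp.norm_toLp]
      have h1 := eLpNorm_le_of_ae_bound (p := 2) (KI_bound h)
      rw [measure_univ, ENNReal.one_rpow, one_mul] at h1
      calc (eLpNorm (KI h) 2 mu).toReal ≤ (ENNReal.ofReal ‖h‖).toReal :=
            ENNReal.toReal_mono ENNReal.ofReal_ne_top h1
        _ = ‖h‖ := ENNReal.toReal_ofReal (norm_nonneg _))

lemma T_apply (h : H0) : (T h : ℝ → ℂ) =ᵐ[mu] KI h := (KI_memLp h).coeFn_toLp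

/-! ### the test functions -/

/-- a polynomial bump vanishing at `a` and `a + δ` with integral zero -/
def G (a δ y : ℝ) : ℝ := (y - a) * (δ - (y - a)) * (δ - 2 * (y - a))

/-- its derivative -/
def g (a δ y : ℝ) : ℝ := δ ^ 2 - 6 * δ * (y - a) + 6 * (y - a) ^ 2

/-- its antiderivative -/
def GG (a δ y : ℝ) : ℝ := (y - a) ^ 2 * (δ - (y - a)) ^ 2 / 2

lemma deriv_G (a δ y : ℝ) : HasDerivAt (G a δ) (g a δ y) y := by
  have h1 : HasDerivAt (fun y : ℝ => y - a) 1 y := (hasDerivAt_id y).sub_const a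
  have h2 : HasDerivAt (fun y : ℝ => δ - (y - a)) (-1) y := by
    simpa using h1.const_sub δ
  have h3 : HasDerivAt (fun y : ℝ => δ - 2 * (y - a)) (-2) y := by
    simpa using (h1.const_mul 2).const_sub δ
  have h4 := (h1.mul h2).mul h3
  refine h4.congr_deriv ?_
  unfold g
  simp only [Pi.mul_apply]
  ring

lemma deriv_GG (a δ y : ℝ) : HasDerivAt (GG a δ) (G a δ y) y := by
  have h1 : HasDerivAt (fun y : ℝ => y - a) 1 y := (hasDerivAt_id y).sub_const a
  have h2 : HasDerivAt (fun y : ℝ => δ - (y - a)) (-1) y := by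
    simpa using h1.const_sub δ
  have h4 := ((h1.pow 2).mul (h2.pow 2)).div_const 2
  refine h4.congr_deriv ?_
  unfold G
  simp only [Pi.pow_apply]
  push_cast
  ring

lemma deriv_P (a δ y : ℝ) :
    HasDerivAt (fun u => u * G a δ u - GG a δ u) (y * g a δ y) y := by
  have h1 := ((hasDerivAt_id y).mul (deriv_G a δ y)).sub (deriv_GG a δ y)
  refine h1.congr_deriv ?_
  simp only [id_eq]
  ring

lemma cont_g (a δ : ℝ) : Continuous (g a δ) := by unfold g; fun_prop
lemma cont_G (a δ : ℝ) : Continuous (G a δ) := by unfold G; fun_prop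

lemma int_ug (a δ x y : ℝ) : ∫ u in x..y, u * g a δ u =
    (y * G a δ y - GG a δ y) - (x * G a δ x - GG a δ x) := by
  refine intervalIntegral.integral_eq_sub_of_hasDerivAt (fun u _ => deriv_P a δ u) ?_
  exact (continuous_id.mul (cont_g a δ)).intervalIntegrable _ _

lemma int_g (a δ x y : ℝ) : ∫ u in x..y, g a δ u = G a δ y - G a δ x := by
  refine intervalIntegral.integral_eq_sub_of_hasDerivAt (fun u _ => deriv_G a δ u) ?_
  exact (cont_g a δ).intervalIntegrable _ _

lemma G_left (a δ : ℝ) : G a δ a = 0 := by unfold G; ring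
lemma G_right (a δ : ℝ) : G a δ (a + δ) = 0 := by unfold G; ring
lemma GG_left (a δ : ℝ) : GG a δ a = 0 := by unfold GG; ring
lemma GG_right (a δ : ℝ) : GG a δ (a + δ) = 0 := by unfold GG; ring

lemma int_GG (a δ : ℝ) : ∫ y in a..(a + δ), G a δ y ^ 2 = δ ^ 7 / 210 := by
  have h : ∀ y ∈ Set.uIcc a (a + δ), HasDerivAt (fun y : ℝ =>
      δ ^ 4 * (y - a) ^ 3 / 3 - 6 * δ ^ 3 * (y - a) ^ 4 / 4 + 13 * δ ^ 2 * (y - a) ^ 5 / 5
        - 12 * δ * (y - a) ^ 6 / 6 + 4 * (y - a) ^ 7 / 7) (G a δ y ^ 2) y := by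
    intro y _
    have h1 : HasDerivAt (fun y : ℝ => y - a) 1 y := (hasDerivAt_id y).sub_const a
    have h2 := (((((h1.pow 3).const_mul (δ ^ 4)).div_const 3).sub
      (((h1.pow 4).const_mul (6 * δ ^ 3)).div_const 4)).add
      (((h1.pow 5).const_mul (13 * δ ^ 2)).div_const 5)).sub
      (((h1.pow 6).const_mul (12 * δ)).div_const 6) |>.add
      (((h1.pow 7).const_mul 4).div_const 7)
    refine h2.congr_deriv ?_
    unfold G
    push_cast
    ring
  rw [intervalIntegral.integral_eq_sub_of_hasDerivAt h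
    (((cont_G a δ).pow 2).intervalIntegrable _ _)]
  ring

/-- values of the kernel for `y, u` in `(1/2, 1]` -/
lemma K_mul_lt {y u : ℝ} (hy : 1 / 2 < y) (hu : 0 < u) (h : u < y) : K y u * u = u := by
  have hy0 : 0 < y := by linarith
  have h1 : 0 < u / y := div_pos hu hy0
  have h2 : u / y < 1 := (div_lt_one hy0).mpr h
  unfold K
  rw [Int.fract_eq_self.mpr ⟨h1.le, h2⟩, div_self h1.ne', one_mul]

lemma K_mul_ge {y u : ℝ} (hy : 1 / 2 < y) (hu : u ≤ 1) (h : y ≤ u) : K y u * u = u - y := by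
  have hy0 : 0 < y := by linarith
  have hu0 : 0 < u := by linarith
  have h1 : 1 ≤ u / y := (one_le_div hy0).mpr h
  have h2 : u / y < 2 := by rw [div_lt_iff₀ hy0]; linarith
  have h3 : Int.fract (u / y) = u / y - 1 := by
    rw [Int.fract_eq_iff]
    refine ⟨by linarith, by linarith, 1, by simp⟩
  unfold K
  rw [h3]
  field_simp

/-- the transform of `u * g(u)` on a cell -/
lemma cell_int {a δ y : ℝ} (ha : 1 / 2 ≤ a) (hδ : 0 < δ) (hb : a + δ ≤ 1) (hy : 1 / 2 < y)
    (hy1 : y ≤ 1) :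
    ∫ u in a..(a + δ), K y u * (u * g a δ u) =
      if y ∈ Set.Ioc a (a + δ) then y * G a δ y else 0 := by
  have hleft : ∀ x z, a ≤ x → x ≤ z → z ≤ y → ∫ u in x..z, K y u * (u * g a δ u) =
      ∫ u in x..z, u * g a δ u := by
    intro x z hax hxz hz
    have h0 : ∀ᵐ u ∂(volume : Measure ℝ), u ≠ y := by
      rw [ae_iff]; simp
    refine intervalIntegral.integral_congr_ae ?_
    filter_upwards [h0] with u hne hu
    rw [Set.uIoc_of_le hxz] at hu
    rw [← mul_assoc, K_mul_lt hy (by linarith [hu.1]) (lt_of_le_of_ne (hu.2.trans hz) hne)]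
  have hright : ∀ x z, y ≤ x → x ≤ z → z ≤ 1 → ∫ u in x..z, K y u * (u * g a δ u) =
      (∫ u in x..z, u * g a δ u) - y * ∫ u in x..z, g a δ u := by
    intro x z hyx hxz hz
    have i1 : IntervalIntegrable (fun u => u * g a δ u) volume x z :=
      (continuous_id.mul (cont_g a δ)).intervalIntegrable _ _
    have i2 : IntervalIntegrable (fun u => y * g a δ u) volume x z :=
      (continuous_const.mul (cont_g a δ)).intervalIntegrable _ _
    rw [← intervalIntegral.integral_const_mul, ← intervalIntegral.integral_sub i1 i2]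
    refine intervalIntegral.integral_congr fun u hu => ?_
    rw [Set.uIcc_of_le hxz] at hu
    rw [← mul_assoc, K_mul_ge hy (hu.2.trans hz) (hyx.trans hu.1)]
    ring
  rcases le_or_gt y a with h | h
  · rw [if_neg (fun hm => absurd hm.1 (not_lt.mpr h)), hright a (a + δ) h (by linarith) hb,
      int_ug, int_g, G_left, G_right, GG_left, GG_right]
    ring
  · rcases le_or_gt y (a + δ) with h' | h'
    · rw [if_pos ⟨h, h'⟩]
      have hint1 : IntervalIntegrable (fun u => K y u * (u * g a δ u)) volume a y := by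
        have : IntervalIntegrable (fun u => u * g a δ u) volume a y :=
          (continuous_id.mul (cont_g a δ)).intervalIntegrable _ _
        refine this.congr_ae ?_
        have h0 : ∀ᵐ u ∂(volume : Measure ℝ), u ≠ y := by
          rw [ae_iff]; simp
        rw [Filter.EventuallyEq, Set.uIoc_of_le h.le, ae_restrict_iff' measurableSet_Ioc]
        filter_upwards [h0] with u hne hu
        rw [← mul_assoc, K_mul_lt hy (by linarith [hu.1]) (lt_of_le_of_ne hu.2 hne)]
      have hint2 : IntervalIntegrable (fun u => K y u * (u * g a δ u)) volume y (a + δ) := by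
        have : IntervalIntegrable (fun u => (u - y) * g a δ u) volume y (a + δ) :=
          ((continuous_id.sub continuous_const).mul (cont_g a δ)).intervalIntegrable _ _
        refine this.congr_ae ?_
        rw [Filter.EventuallyEq, Set.uIoc_of_le h', ae_restrict_iff' measurableSet_Ioc]
        refine Filter.Eventually.of_forall fun u hu => ?_
        rw [← mul_assoc, K_mul_ge hy (hu.2.trans hb) hu.1.le]
      rw [← intervalIntegral.integral_add_adjacent_intervals hint1 hint2,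
        hleft a y le_rfl h.le le_rfl, hright y (a + δ) le_rfl h' hb, int_ug, int_ug, int_g,
        G_left, G_right, GG_left, GG_right]
      ring
    · rw [if_neg (fun hm => absurd hm.2 (not_le.mpr h')), hleft a (a + δ) le_rfl (by linarith) h'.le,
        int_ug, G_left, G_right, GG_left, GG_right]
      ring

/-! ### vectors supported in a cell -/

lemma memLp_cell {s : Set ℝ} (hs : MeasurableSet s) {φ : ℝ → ℝ} (hφ : Measurable φ) {C : ℝ}
    (hC : ∀ u ∈ s, |φ u| ≤ C) (hC0 : 0 ≤ C) :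
    MemLp (s.indicator (fun u => (φ u : ℂ))) 2 mu := by
  refine MemLp.of_bound ((Complex.measurable_ofReal.comp hφ).indicator hs).aestronglyMeasurable C ?_
  refine Filter.Eventually.of_forall fun u => ?_
  by_cases hu : u ∈ s
  · rw [Set.indicator_of_mem hu, Complex.norm_real]
    exact hC u hu
  · rw [Set.indicator_of_notMem hu, norm_zero]
    exact hC0

lemma inner_cell {s : Set ℝ} (hs : MeasurableSet s) {φ : ℝ → ℝ}
    (hm : MemLp (s.indicator (fun u => (φ u : ℂ))) 2 mu) (f : H0) :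
    inner ℂ (hm.toLp _) f = ∫ y in s, (φ y : ℂ) * (f : ℝ → ℂ) y ∂mu := by
  rw [L2.inner_def, ← integral_indicator hs]
  refine integral_congr_ae ?_
  filter_upwards [hm.coeFn_toLp] with y hy
  rw [hy]
  by_cases h : y ∈ s
  · rw [Set.indicator_of_mem h, Set.indicator_of_mem h, RCLike.inner_apply, Complex.conj_ofReal,
      mul_comm]
  · rw [Set.indicator_of_notMem h, Set.indicator_of_notMem h]
    simp

lemma inner_cell_cell {s t : Set ℝ} (hs : MeasurableSet s) (ht : MeasurableSet t)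
    (hst : Disjoint s t) {φ ψ : ℝ → ℝ}
    (hm : MemLp (s.indicator (fun u => (φ u : ℂ))) 2 mu)
    (hm' : MemLp (t.indicator (fun u => (ψ u : ℂ))) 2 mu) :
    inner ℂ (hm.toLp _) (hm'.toLp _) = 0 := by
  rw [inner_cell hs hm]
  have h1 : ∀ᵐ y ∂(mu.restrict s), (φ y : ℂ) * (hm'.toLp _ : ℝ → ℂ) y = 0 := by
    filter_upwards [ae_restrict_of_ae hm'.coeFn_toLp, ae_restrict_mem hs] with y hy hys
    rw [hy, Set.indicator_of_notMem (Set.disjoint_left.mp hst hys), mul_zero]
  rw [integral_congr_ae h1]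
  simp

lemma mu_cell {a b : ℝ} (ha : 0 ≤ a) (hb : b ≤ 1) :
    mu.restrict (Set.Ioc a b) = volume.restrict (Set.Ioc a b) := by
  unfold mu
  rw [Measure.restrict_restrict measurableSet_Ioc]
  congr 1
  exact Set.inter_eq_left.mpr fun x hx => ⟨lt_of_le_of_lt ha hx.1, hx.2.trans hb⟩

lemma norm_cell {a b : ℝ} (ha : 0 ≤ a) (hab : a ≤ b) (hb : b ≤ 1) {φ : ℝ → ℝ} {C : ℝ}
    (hC : ∀ u ∈ Set.Ioc a b, |φ u| ≤ C) (hC0 : 0 ≤ C)
    (hm : MemLp ((Set.Ioc a b).indicator (fun u => (φ u : ℂ))) 2 mu) :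
    ‖hm.toLp _‖ ^ 2 ≤ C ^ 2 * (b - a) := by
  rw [Lp.norm_toLp]
  have h1 : eLpNorm ((Set.Ioc a b).indicator (fun u => (φ u : ℂ))) 2 mu ≤
      ENNReal.ofReal (b - a) ^ (1 / 2 : ℝ) * ENNReal.ofReal C := by
    rw [eLpNorm_indicator_eq_eLpNorm_restrict measurableSet_Ioc, mu_cell ha hb]
    have h2 := eLpNorm_le_of_ae_bound (p := 2) (μ := volume.restrict (Set.Ioc a b))
      (f := fun u => (φ u : ℂ)) (C := C) (by
        filter_upwards [ae_restrict_mem measurableSet_Ioc] with u hu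
        rw [Complex.norm_real]
        exact hC u hu)
    rw [Measure.restrict_apply MeasurableSet.univ, Set.univ_inter, Real.volume_Ioc] at h2
    have h3 : ((2 : ENNReal).toReal)⁻¹ = (1 / 2 : ℝ) := by simp
    rw [h3] at h2
    exact h2
  have hba : 0 ≤ b - a := by linarith
  rw [ENNReal.ofReal_rpow_of_nonneg hba (by norm_num), ← ENNReal.ofReal_mul (by positivity)] at h1
  have h4 : (eLpNorm ((Set.Ioc a b).indicator (fun u => (φ u : ℂ))) 2 mu).toReal ≤
      (b - a) ^ (1 / 2 : ℝ) * C :=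
    ENNReal.toReal_le_of_le_ofReal (by positivity) h1
  calc _ ≤ ((b - a) ^ (1 / 2 : ℝ) * C) ^ 2 := pow_le_pow_left₀ ENNReal.toReal_nonneg h4 2
    _ = C ^ 2 * (b - a) := by
        rw [mul_pow, ← Real.sqrt_eq_rpow, Real.sq_sqrt hba]; ring

lemma abs_g_le {a δ u : ℝ} (hu : u ∈ Set.Ioc a (a + δ)) : |g a δ u| ≤ δ ^ 2 := by
  have h1 : 0 < u - a := by linarith [hu.1]
  have h2 : u - a ≤ δ := by linarith [hu.2]
  unfold g
  rw [abs_le]
  set x := u - a
  constructor
  · nlinarith [sq_nonneg (2 * x - δ)]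
  · nlinarith [mul_nonneg h1.le (sub_nonneg.mpr h2)]

lemma abs_G_le {a δ u : ℝ} (hu : u ∈ Set.Ioc a (a + δ)) : |G a δ u| ≤ δ ^ 3 / 4 := by
  have h1 : 0 < u - a := by linarith [hu.1]
  have h2 : u - a ≤ δ := by linarith [hu.2]
  unfold G
  set x := u - a
  have hδ : 0 < δ := by linarith
  have h3 : |x * (δ - x)| ≤ δ ^ 2 / 4 := by
    rw [abs_of_nonneg (mul_nonneg h1.le (sub_nonneg.mpr h2))]
    nlinarith [sq_nonneg (2 * x - δ)]
  have h4 : |δ - 2 * x| ≤ δ := by
    rw [abs_le]; constructor <;> linarith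
  rw [abs_mul]
  calc |x * (δ - x)| * |δ - 2 * x| ≤ (δ ^ 2 / 4) * δ :=
        mul_le_mul h3 h4 (abs_nonneg _) (by positivity)
    _ = _ := by ring

/-- left endpoint of the `i`-th cell -/
def aa (N : ℕ) (i : Fin N) : ℝ := 1 / 2 + (i : ℝ) / (2 * N)

lemma cell_disjoint (N : ℕ) (i j : Fin N) (h : i < j) :
    Disjoint (Set.Ioc (aa N i) (aa N i + 1 / (2 * N))) (Set.Ioc (aa N j) (aa N j + 1 / (2 * N))) := by
  have hN : (0 : ℝ) < N := by
    have := i.pos
    exact_mod_cast this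
  have h1 : aa N i + 1 / (2 * N) ≤ aa N j := by
    unfold aa
    have h2 : (i : ℝ) + 1 ≤ j := by exact_mod_cast h
    have h3 : (i : ℝ) / (2 * N) + 1 / (2 * N) ≤ (j : ℝ) / (2 * N) := by
      rw [← add_div]
      exact div_le_div_of_nonneg_right h2 (by positivity)
    linarith
  rw [Set.disjoint_left]
  intro x hx hx'
  linarith [hx.2, hx'.1]

lemma cell_disjoint' (N : ℕ) (i j : Fin N) (h : i ≠ j) :
    Disjoint (Set.Ioc (aa N i) (aa N i + 1 / (2 * N))) (Set.Ioc (aa N j) (aa N j + 1 / (2 * N))) := by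
  rcases lt_or_gt_of_ne h with h | h
  · exact cell_disjoint N i j h
  · exact (cell_disjoint N j i h).symm

lemma test_T : Test T (1 / 420) := by
  intro N hN
  have hN0 : (0 : ℝ) < N := by exact_mod_cast hN
  set δ : ℝ := 1 / (2 * N) with hδ
  have hδ0 : 0 < δ := by positivity
  have ha : ∀ i : Fin N, 1 / 2 ≤ aa N i := by
    intro i
    unfold aa
    have : (0 : ℝ) ≤ (i : ℝ) / (2 * N) := by positivity
    linarith
  have hb : ∀ i : Fin N, aa N i + δ ≤ 1 := by
    intro i
    have h2 : (i : ℝ) + 1 ≤ N := by exact_mod_cast i.isLt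
    have h3 : (i : ℝ) / (2 * N) + 1 / (2 * N) ≤ 1 / 2 := by
      rw [← add_div, div_le_div_iff₀ (by positivity) (by norm_num)]
      linarith
    unfold aa
    rw [hδ]
    linarith
  -- the vectors
  have hCh : ∀ i : Fin N, ∀ u ∈ Set.Ioc (aa N i) (aa N i + δ), |u * g (aa N i) δ u| ≤ δ ^ 2 := by
    intro i u hu
    rw [abs_mul]
    have h1 : |u| ≤ 1 := by
      rw [abs_of_pos (by linarith [hu.1, ha i])]
      linarith [hu.2, hb i]
    calc |u| * |g (aa N i) δ u| ≤ 1 * δ ^ 2 :=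
          mul_le_mul h1 (abs_g_le hu) (abs_nonneg _) (by norm_num)
      _ = _ := one_mul _
  have hCk : ∀ i : Fin N, ∀ u ∈ Set.Ioc (aa N i) (aa N i + δ), |G (aa N i) δ u / u| ≤ δ ^ 3 := by
    intro i u hu
    have h1 : 1 / 2 < u := by linarith [hu.1, ha i]
    rw [abs_div, abs_of_pos (by linarith : (0 : ℝ) < u), div_le_iff₀ (by linarith)]
    calc |G (aa N i) δ u| ≤ δ ^ 3 / 4 := abs_G_le hu
      _ ≤ δ ^ 3 * u := by nlinarith [pow_pos hδ0 3]
  have mh : ∀ i : Fin N, MemLp ((Set.Ioc (aa N i) (aa N i + δ)).indicator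
      (fun u => ((u * g (aa N i) δ u : ℝ) : ℂ))) 2 mu := fun i =>
    memLp_cell measurableSet_Ioc (measurable_id.mul (cont_g _ _).measurable) (hCh i) (by positivity)
  have mk : ∀ i : Fin N, MemLp ((Set.Ioc (aa N i) (aa N i + δ)).indicator
      (fun u => ((G (aa N i) δ u / u : ℝ) : ℂ))) 2 mu := fun i =>
    memLp_cell measurableSet_Ioc ((cont_G _ _).measurable.div measurable_id) (hCk i) (by positivity)
  set h : Fin N → H0 := fun i => (mh i).toLp _ with hh
  set k : Fin N → H0 := fun i => (mk i).toLp _ with hk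
  have horth : ∀ i j, i ≠ j → inner ℂ (h i) (h j) = 0 := fun i j hij =>
    inner_cell_cell measurableSet_Ioc measurableSet_Ioc (cell_disjoint' N i j hij) _ _
  have korth : ∀ i j, i ≠ j → inner ℂ (k i) (k j) = 0 := fun i j hij =>
    inner_cell_cell measurableSet_Ioc measurableSet_Ioc (cell_disjoint' N i j hij) _ _
  have hnorm : ∀ i, ‖h i‖ ^ 2 ≤ δ ^ 5 := by
    intro i
    have := norm_cell (a := aa N i) (b := aa N i + δ) (by linarith [ha i]) (by linarith) (hb i)
      (hCh i) (by positivity) (mh i)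
    calc ‖h i‖ ^ 2 ≤ (δ ^ 2) ^ 2 * (aa N i + δ - aa N i) := this
      _ = δ ^ 5 := by ring
  have knorm : ∀ i, ‖k i‖ ^ 2 ≤ δ ^ 7 := by
    intro i
    have := norm_cell (a := aa N i) (b := aa N i + δ) (by linarith [ha i]) (by linarith) (hb i)
      (hCk i) (by positivity) (mk i)
    calc ‖k i‖ ^ 2 ≤ (δ ^ 3) ^ 2 * (aa N i + δ - aa N i) := this
      _ = δ ^ 7 := by ring
  -- the transform of `h i`
  have hTh : ∀ i, ∀ y ∈ Set.Ioc (1 / 2 : ℝ) 1, KI (h i) y =
      (((if y ∈ Set.Ioc (aa N i) (aa N i + δ) then y * G (aa N i) δ y else 0 : ℝ)) : ℂ) := by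
    intro i y hy
    rw [← cell_int (ha i) hδ0 (hb i) hy.1 hy.2]
    rw [intervalIntegral.integral_of_le (by linarith), ← mu_cell (by linarith [ha i]) (hb i)]
    unfold KI
    rw [← integral_complex_ofReal, ← integral_indicator measurableSet_Ioc]
    refine integral_congr_ae ?_
    filter_upwards [(mh i).coeFn_toLp] with u hu
    rw [hh]
    simp only
    rw [hu]
    by_cases hm : u ∈ Set.Ioc (aa N i) (aa N i + δ)
    · rw [Set.indicator_of_mem hm, Set.indicator_of_mem hm]
      push_cast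
      ring
    · rw [Set.indicator_of_notMem hm, Set.indicator_of_notMem hm, mul_zero]
  have hmat : ∀ i j, inner ℂ (k j) (T (h i)) = if i = j then ((δ ^ 7 / 210 : ℝ) : ℂ) else 0 := by
    intro i j
    have e0 := inner_cell measurableSet_Ioc (mk j) (T (h i))
    rw [e0]
    have e1 : ∀ᵐ y ∂(mu.restrict (Set.Ioc (aa N j) (aa N j + δ))),
        ((G (aa N j) δ y / y : ℝ) : ℂ) * (T (h i) : ℝ → ℂ) y =
        if i = j then (((G (aa N j) δ y) ^ 2 : ℝ) : ℂ) else 0 := by
      filter_upwards [ae_restrict_of_ae (T_apply (h i)), ae_restrict_mem measurableSet_Ioc]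
        with y hy hys
      have hy1 : y ∈ Set.Ioc (1 / 2 : ℝ) 1 :=
        ⟨by linarith [hys.1, ha j], hys.2.trans (hb j)⟩
      rw [hy, hTh i y hy1]
      by_cases hij : i = j
      · subst hij
        rw [if_pos rfl, if_pos hys, ← Complex.ofReal_mul]
        congr 1
        have : y ≠ 0 := by linarith [hy1.1]
        field_simp
      · rw [if_neg hij, if_neg (Set.disjoint_left.mp (cell_disjoint' N j i (Ne.symm hij)) hys)]
        simp
    rw [integral_congr_ae e1]
    by_cases hij : i = j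
    · simp only [if_pos hij]
      rw [mu_cell (by linarith [ha j]) (hb j), integral_complex_ofReal,
        ← intervalIntegral.integral_of_le (by linarith), int_GG]
    · simp only [if_neg hij]
      simp
  refine ⟨h, fun c hc => ?_⟩
  obtain ⟨h1, h2⟩ := lower T h k (δ ^ 5) (δ ^ 7) (δ ^ 7 / 210) (by positivity) (by positivity)
    (by positivity) horth korth hnorm knorm hmat c hc
  refine ⟨h1, ?_⟩
  set v := ∑ i, c i • h i with hv
  have h3 : (δ / 210 * ‖v‖) ^ 2 ≤ ‖T v‖ ^ 2 := by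
    have h4 : (δ ^ 12) * (δ / 210 * ‖v‖) ^ 2 ≤ δ ^ 12 * ‖T v‖ ^ 2 := by
      calc (δ ^ 12) * (δ / 210 * ‖v‖) ^ 2 = (δ ^ 7 / 210) ^ 2 * ‖v‖ ^ 2 := by ring
        _ ≤ δ ^ 5 * δ ^ 7 * ‖T v‖ ^ 2 := h2
        _ = _ := by ring
    exact le_of_mul_le_mul_left h4 (by positivity)
  have h5 : δ / 210 * ‖v‖ ≤ ‖T v‖ := by
    exact le_of_sq_le_sq h3 (norm_nonneg _)
  have h6 : (1 / 420 / N : ℝ) = δ / 210 := by rw [hδ]; field_simp; norm_num
  rw [h6]
  exact h5

/-! ### statement -/

/-- The complex Hilbert space `L^2([0,1])`. -/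
def H : Type := Lp ℂ 2 mu

instance instNormH : NormedAddCommGroup H := (inferInstance : NormedAddCommGroup (Lp ℂ 2 mu))
instance instInnerH : InnerProductSpace ℂ H := (inferInstance : InnerProductSpace ℂ (Lp ℂ 2 mu))
instance instCompleteH : CompleteSpace H := (inferInstance : CompleteSpace (Lp ℂ 2 mu))

/-- Bounded operators on `L^2([0,1])`. -/
abbrev Op := H →L[ℂ] H

/-- The function (up to null sets) given by an element of `L^2([0,1])`. -/
def fn (h : H) : ℝ → ℂ := ((show Lp ℂ 2 mu from h) : ℝ → ℂ)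

/-- `T` is the integral operator with kernel `K`. -/
def IsKernelOp (T : Op) : Prop :=
  ∀ h : H, ∀ᵐ y ∂mu, fn (T h) y = ∫ u, (K y u : ℂ) * fn h u ∂mu

/-- `F` has rank less than `n`. -/
def RankLT (F : Op) (n : ℕ) : Prop :=
  FiniteDimensional ℂ (LinearMap.range F.toLinearMap) ∧
    finrank ℂ (LinearMap.range F.toLinearMap) < n

/-- The approximation numbers of `T` (its singular values) are at least `1/(420 n)`. -/
def ApproxLower (T : Op) : Prop :=
  ∀ n : ℕ, 1 ≤ n → ∀ F : Op, RankLT F n → 1 / (420 * n) ≤ ‖T - F‖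

/-- `b` is an orthonormal basis of eigenvectors of `T* T` with eigenvalues `s i ^ 2`, `s i ≥ 0`,
that is `⟨T b_i, T x⟩ = s_i^2 ⟨b_i, x⟩` for all `x`; then the `s i` are the singular values of `T`,
counted with multiplicity. -/
def SingularBasis (T : Op) {ι : Type} (b : HilbertBasis ι ℂ H) (s : ι → ℝ) : Prop :=
  (∀ i, 0 ≤ s i) ∧
    ∀ i (x : H), inner ℂ (T (b i)) (T x) = ((s i ^ 2 : ℝ) : ℂ) * inner ℂ (b i) x

/-- The singular values of `T` are not summable. -/
def SumInfinite (T : Op) : Prop :=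
  ∀ (ι : Type) (b : HilbertBasis ι ℂ H) (s : ι → ℝ), SingularBasis T b s → ¬ Summable s

/-- **Main result** (Q1 of MP_5a0ad8_an is disproved): `T` is not of trace class; more precisely
`s_n(T) ≥ 1/(420 n)` for all `n`. -/
theorem result : ∃ T : Op, IsKernelOp T ∧ ApproxLower T ∧ SumInfinite T := by
  refine ⟨T, fun h => ?_, fun n hn F hF => ?_, fun ι b s hs => ?_⟩
  · filter_upwards [T_apply h] with y hy
    exact hy
  · have := approx_of_test test_T n hn F hF.1 hF.2
    rwa [div_div] at this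
  · refine eigen_of_test (by norm_num) test_T b s hs.1 fun i => ?_
    refine ext_inner_right ℂ fun x => ?_
    rw [ContinuousLinearMap.adjoint_inner_left, inner_smul_left, Complex.conj_ofReal]
    exact hs.2 i x

end

end Pool.Agent.Results.MP_5a0ad8_an.NotTraceClass
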